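import Pool.Agent.R259.KL.Exp

/-!
# Local balance in a fixed knot type: classes of knot types
-/

set_option autoImplicit false

namespace Pool.Agent.R259.KL

open Finset Filter Topology KN
open scoped Classical

noncomputable section

/-- upper bound for classes closed under connected sums -/
theorem upN (Q : List Dir → Prop) (hQ : KClass Q) (hne : ∃ w, SAP w ∧ Q w) (hc : CSum Q) (n : ℕ) :
    (a Q n : ℝ) ≤ 32 * n * gr Q ^ n := by
  obtain ⟨hg, -, -⟩ := gr_bounds Q hQ hne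
  have hg0 : 0 < gr Q := by linarith
  rcases Nat.even_or_odd' n with ⟨k, rfl | rfl⟩
  swap
  · rw [a_odd _ _ (by omega)]
    push_cast
    positivity
  rcases Nat.eq_zero_or_pos k with rfl | hk
  · have : a Q (2 * 0) = 0 := by
      unfold a
      rw [card_eq_zero, eq_empty_iff_forall_notMem]
      intro w hw
      obtain ⟨h1, h2, -⟩ := mem_K.1 hw
      have := h2.1
      omega
    rw [this]
    simp
  have hk0 : (0 : ℝ) < k := by exact_mod_cast hk
  set x : ℕ → ℝ := fun k => (a Q (2 * k) : ℝ) with hx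
  have hx0 : ∀ k, 0 ≤ x k := fun k => Nat.cast_nonneg _
  have hsup : ∀ n m, x n * x m ≤ 32 * m * x (n + m) := by
    intro n m
    have h := GEN.super Q hQ hc (2 * n) (2 * m)
    have h' : (a Q (2 * n) : ℝ) * a Q (2 * m) ≤ 16 * (2 * m) * a Q (2 * n + 2 * m) := by
      exact_mod_cast h
    simp only [hx, mul_add]
    linarith
  set y : ℕ → ℝ := fun k => x k / (64 * k) with hy
  have hy0 : ∀ k, 0 ≤ y k := fun k => by
    have := hx0 k
    simp only [hy]
    positivity
  have hadd : ∀ q : ℕ, 1 ≤ q → y (q * k) * y k ≤ y ((q + 1) * k) := by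
    intro q hq
    have hq0 : (1 : ℝ) ≤ q := by exact_mod_cast hq
    have h1 := hsup (q * k) k
    have e : (q + 1) * k = q * k + k := by ring
    simp only [hy]
    rw [e, div_mul_div_comm, div_le_div_iff₀ (by positivity) (by positivity)]
    push_cast
    calc x (q * k) * x k * (64 * ((q : ℝ) * k + k))
        ≤ 32 * k * x (q * k + k) * (64 * ((q : ℝ) * k + k)) := by gcongr
      _ ≤ 32 * k * x (q * k + k) * (64 * ((q : ℝ) * k + q * k)) := by
          have := hx0 (q * k + k)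
          have h5 : (k : ℝ) ≤ q * k := by nlinarith
          gcongr
      _ = _ := by ring
  have hpow : ∀ q : ℕ, 1 ≤ q → y k ^ q ≤ y (q * k) := by
    intro q hq
    induction q, hq using Nat.le_induction with
    | base => simp
    | succ q hq ih =>
      rw [pow_succ]
      exact (mul_le_mul_of_nonneg_right ih (hy0 k)).trans (hadd q hq)
  have hlim := (GEN.root_iff Q (gr Q)).1 (class_sum Q hQ hne hc).1
  have hcomp : Tendsto (fun q : ℕ => q * k) atTop atTop :=
    tendsto_atTop_mono (fun q => Nat.le_mul_of_pos_right q hk) tendsto_id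
  have hlim2 := hlim.comp hcomp
  have hle : y k ^ (1 / (2 * k : ℝ)) ≤ gr Q := by
    refine ge_of_tendsto hlim2 (eventually_atTop.2 ⟨1, fun q hq => ?_⟩)
    have hq0 : (0 : ℝ) < q := by exact_mod_cast hq
    have h1 : y k ^ q ≤ (a Q (2 * (q * k)) : ℝ) := by
      refine (hpow q hq).trans ?_
      simp only [hy]
      have h2 := hx0 (q * k)
      have h3 : (1 : ℝ) ≤ 64 * ((q * k : ℕ) : ℝ) := by
        have : 1 ≤ q * k := Nat.one_le_iff_ne_zero.2 (by positivity)
        have : (1 : ℝ) ≤ ((q * k : ℕ) : ℝ) := by exact_mod_cast this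
        linarith
      exact div_le_self h2 h3
    have h4 : y k ^ (1 / (2 * k : ℝ)) = (y k ^ q) ^ (1 / (2 * ((q * k : ℕ) : ℝ))) := by
      rw [← Real.rpow_natCast (y k) q, ← Real.rpow_mul (hy0 k)]
      congr 1
      push_cast
      field_simp
    show y k ^ (1 / (2 * k : ℝ)) ≤ (a Q (2 * (q * k)) : ℝ) ^ (1 / (2 * ((q * k : ℕ) : ℝ)))
    rw [h4]
    exact Real.rpow_le_rpow (pow_nonneg (hy0 k) q) h1 (by positivity)
  have h5 : y k ≤ gr Q ^ (2 * k) := by
    have h6 : y k = (y k ^ (1 / (2 * k : ℝ))) ^ (2 * k) := by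
      rw [← Real.rpow_natCast, ← Real.rpow_mul (hy0 k)]
      push_cast
      rw [one_div_mul_cancel (by positivity), Real.rpow_one]
    rw [h6]
    exact pow_le_pow_left₀ (Real.rpow_nonneg (hy0 k) _) hle _
  simp only [hy] at h5
  rw [div_le_iff₀ (by positivity)] at h5
  push_cast
  simp only [hx] at h5
  linarith

/-- the exceptional words: those where `fr w / bu w` is not close to `μ ^ 2` -/
def exceptional (Q : List Dir → Prop) (μ ε : ℝ) (n : ℕ) : Finset (List Dir) :=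
  (K Q n).filter (fun w => ε * bu w ≤ |(fr w : ℝ) - μ ^ 2 * bu w|)

theorem ratio_form (Q : List Dir → Prop) (hQ : KClass Q) (hne : ∃ w, SAP w ∧ Q w) (ε : ℝ)
    (hε : 0 < ε) : ∃ θ C : ℝ, 0 < θ ∧ θ < 1 ∧ 0 ≤ C ∧ ∀ n : ℕ,
      ((exceptional Q (gr Q) ε n).card : ℝ) ≤ C * (θ * gr Q) ^ n := by
  obtain ⟨h1, -, h2⟩ := gr_bounds Q hQ hne
  have hg0 : 0 < gr Q := by linarith
  obtain ⟨θ₁, C₁, a1, a2, a3⟩ := class_pattern Q hQ hne
  obtain ⟨θ₂, C₂, b1, b2, b3⟩ := exp_bal Q (GEN.inv_of Q hQ) (gr Q) hg0 h2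
    (fun τ hτ => GEN.upper S_five_proof Q hg0 τ hτ) (ε / 10 ^ 7) (by positivity)
  have hC1 : 0 ≤ C₁ := by
    have := a3 0
    simp only [pow_zero, mul_one] at this
    exact le_trans (Nat.cast_nonneg _) this
  have hC2 : 0 ≤ C₂ := by
    have := b3 0
    simp only [pow_zero, mul_one] at this
    exact le_trans (Nat.cast_nonneg _) this
  refine ⟨max θ₁ θ₂, C₁ + C₂, lt_max_of_lt_left a1, max_lt a2 b2, by linarith, fun n => ?_⟩
  have hsub : exceptional Q (gr Q) ε n ⊆
      (K Q n).filter (fun w => 10 ^ 7 * fr w ≤ n ∨ 10 ^ 7 * bu w ≤ n) ∪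
        off Q (gr Q) n (ε / 10 ^ 7 * n) := by
    intro w hw
    unfold exceptional at hw
    rw [mem_filter] at hw
    rw [mem_union, mem_filter]
    by_cases hb : 10 ^ 7 * bu w ≤ n
    · exact Or.inl ⟨hw.1, Or.inr hb⟩
    · right
      unfold off
      rw [mem_filter]
      refine ⟨hw.1, ?_⟩
      push Not at hb
      have hb' : (n : ℝ) ≤ 10 ^ 7 * bu w := by exact_mod_cast hb.le
      refine le_trans ?_ hw.2
      rw [div_mul_eq_mul_div, div_le_iff₀ (by positivity)]
      nlinarith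
  have hcard := (card_le_card hsub).trans (card_union_le _ _)
  have hcard' : ((exceptional Q (gr Q) ε n).card : ℝ) ≤
      (bad Q n : ℝ) + (off Q (gr Q) n (ε / 10 ^ 7 * n)).card := by
    unfold bad
    exact_mod_cast hcard
  have m1 : C₁ * (θ₁ * gr Q) ^ n ≤ C₁ * (max θ₁ θ₂ * gr Q) ^ n := by
    have := le_max_left θ₁ θ₂
    gcongr
  have m2 : C₂ * (θ₂ * gr Q) ^ n ≤ C₂ * (max θ₁ θ₂ * gr Q) ^ n := by
    have := le_max_right θ₁ θ₂
    gcongr
  have := a3 n
  have := b3 n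
  rw [add_mul]
  linarith

/-- proportion form for classes closed under connected sums -/
theorem proportion (Q : List Dir → Prop) (hQ : KClass Q) (hne : ∃ w, SAP w ∧ Q w) (hc : CSum Q)
    (ε : ℝ) (hε : 0 < ε) : ∃ θ : ℝ, 0 < θ ∧ θ < 1 ∧ ∀ᶠ j : ℕ in atTop,
      0 < a Q (2 * j) ∧
      ((exceptional Q (gr Q) ε (2 * j)).card : ℝ) ≤ θ ^ (2 * j) * a Q (2 * j) := by
  obtain ⟨h1, -, h2⟩ := gr_bounds Q hQ hne
  have hg0 : 0 < gr Q := by linarith
  obtain ⟨θ, C, t0, t1, hC, hb⟩ := ratio_form Q hQ hne ε hε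
  have hlim := (GEN.root_iff Q (gr Q)).1 (class_sum Q hQ hne hc).1
  -- choose `σ` with `θ < σ < 1`
  set s : ℝ := Real.sqrt (Real.sqrt θ) with hs
  have hs0 : 0 < s := by positivity
  have hs1 : s < 1 := by
    rw [hs, Real.sqrt_lt' one_pos, one_pow, Real.sqrt_lt' one_pos, one_pow]
    exact t1
  have hs4 : s ^ 4 = θ := by
    rw [hs, show (4 : ℕ) = 2 * 2 from rfl, pow_mul, Real.sq_sqrt (by positivity),
      Real.sq_sqrt t0.le]
  have ev1 : ∀ᶠ j : ℕ in atTop, s * gr Q < (a Q (2 * j) : ℝ) ^ (1 / (2 * j : ℝ)) :=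
    hlim.eventually_const_lt (by nlinarith)
  have ev2 : ∀ᶠ j : ℕ in atTop, C * s ^ (2 * j) ≤ 1 := by
    have h3 : Tendsto (fun j : ℕ => C * (s ^ 2) ^ j) atTop (𝓝 (C * 0)) :=
      (tendsto_pow_atTop_nhds_zero_of_lt_one (by positivity) (by nlinarith)).const_mul C
    rw [mul_zero] at h3
    filter_upwards [h3.eventually_le_const one_pos] with j hj
    rw [pow_mul]
    exact hj
  refine ⟨s ^ 2, by positivity, by nlinarith, ?_⟩
  filter_upwards [ev1, ev2, eventually_gt_atTop 0] with j e1 e2 hj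
  have hj0 : (0 : ℝ) < j := by exact_mod_cast hj
  have e3 : (s * gr Q) ^ (2 * j) ≤ (a Q (2 * j) : ℝ) := by
    have e4 : (a Q (2 * j) : ℝ) = ((a Q (2 * j) : ℝ) ^ (1 / (2 * j : ℝ))) ^ (2 * j) := by
      rw [← Real.rpow_natCast, ← Real.rpow_mul (Nat.cast_nonneg _)]
      push_cast
      rw [one_div_mul_cancel (by positivity), Real.rpow_one]
    rw [e4]
    exact pow_le_pow_left₀ (by positivity) e1.le _
  have e5 : 0 < (s * gr Q) ^ (2 * j) := by positivity
  refine ⟨by exact_mod_cast e5.trans_le e3, ?_⟩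
  calc ((exceptional Q (gr Q) ε (2 * j)).card : ℝ) ≤ C * (θ * gr Q) ^ (2 * j) := hb _
    _ = C * s ^ (2 * j) * ((s ^ 2) ^ (2 * j) * (s * gr Q) ^ (2 * j)) := by
        rw [← hs4]; ring
    _ ≤ 1 * ((s ^ 2) ^ (2 * j) * (s * gr Q) ^ (2 * j)) :=
        mul_le_mul_of_nonneg_right e2 (by positivity)
    _ ≤ _ := by
        rw [one_mul]
        exact mul_le_mul_of_nonneg_left e3 (by positivity)

/-- different growth rates are separated by the local statistic -/
theorem separate (Q Q' : List Dir → Prop) (hQ : KClass Q) (hne : ∃ w, SAP w ∧ Q w)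
    (hQ' : KClass Q') (hne' : ∃ w, SAP w ∧ Q' w) (h : gr Q < gr Q') :
    ∃ r θ C : ℝ, 0 < θ ∧ θ < 1 ∧ ∀ n : ℕ,
      (((K Q n).filter (fun w => r * bu w ≤ fr w)).card : ℝ) ≤ C * (θ * gr Q) ^ n ∧
      (((K Q' n).filter (fun w => (fr w : ℝ) ≤ r * bu w)).card : ℝ) ≤ C * (θ * gr Q') ^ n := by
  obtain ⟨h1, -, h2⟩ := gr_bounds Q hQ hne
  obtain ⟨h1', -, h2'⟩ := gr_bounds Q' hQ' hne'
  have hg0 : 0 < gr Q := by linarith
  set ε : ℝ := (gr Q' ^ 2 - gr Q ^ 2) / 2 with hε
  have hε0 : 0 < ε := by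
    have : gr Q ^ 2 < gr Q' ^ 2 := by nlinarith
    rw [hε]
    linarith
  obtain ⟨θ₁, C₁, a1, a2, a3, a4⟩ := ratio_form Q hQ hne ε hε0
  obtain ⟨θ₂, C₂, b1, b2, b3, b4⟩ := ratio_form Q' hQ' hne' ε hε0
  refine ⟨gr Q ^ 2 + ε, max θ₁ θ₂, max C₁ C₂, lt_max_of_lt_left a1, max_lt a2 b2, fun n => ⟨?_, ?_⟩⟩
  · have hsub : (K Q n).filter (fun w => (gr Q ^ 2 + ε) * bu w ≤ fr w) ⊆
        exceptional Q (gr Q) ε n := by
      intro w hw
      rw [mem_filter] at hw
      unfold exceptional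
      rw [mem_filter]
      refine ⟨hw.1, le_trans ?_ (le_abs_self _)⟩
      linarith [hw.2]
    calc _ ≤ ((exceptional Q (gr Q) ε n).card : ℝ) := by exact_mod_cast card_le_card hsub
      _ ≤ _ := a4 n
      _ ≤ _ := by
          have := le_max_left θ₁ θ₂
          have := le_max_left C₁ C₂
          gcongr
  · have hsub : (K Q' n).filter (fun w => (fr w : ℝ) ≤ (gr Q ^ 2 + ε) * bu w) ⊆
        exceptional Q' (gr Q') ε n := by
      intro w hw
      rw [mem_filter] at hw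
      unfold exceptional
      rw [mem_filter]
      refine ⟨hw.1, le_trans ?_ (neg_le_abs _)⟩
      have e : gr Q' ^ 2 = gr Q ^ 2 + 2 * ε := by rw [hε]; ring
      rw [e]
      linarith [hw.2]
    calc _ ≤ ((exceptional Q' (gr Q') ε n).card : ℝ) := by exact_mod_cast card_le_card hsub
      _ ≤ _ := b4 n
      _ ≤ _ := by
          have h5 := le_max_right θ₁ θ₂
          have h6 := le_max_right C₁ C₂
          have h7 : 0 < gr Q' := by linarith
          gcongr

end

end Pool.Agent.R259.KL
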