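import Pool.Agent.H246KN.GEN

/-!
# Local balance in a fixed knot type

The numbers `fr w` of places where an edge of a polygon can be replaced by three edges around a
square and `bu w` of places where three such edges can be replaced by one balance with weight
`gr Q ^ 2`, up to `ε n`, in all but exponentially few polygons of a class `Q` of knot types.
-/

set_option autoImplicit false

namespace Pool.Agent.R259.KL

open Finset Filter Topology KN
open scoped Classical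

noncomputable section

/-- the excess -/
def exc (μ : ℝ) (w : List Dir) : ℝ := (fr w : ℝ) - μ ^ 2 * bu w

/-- words with large excess -/
def up (Q : List Dir → Prop) (μ : ℝ) (n : ℕ) (T : ℝ) : Finset (List Dir) :=
  (K Q n).filter (fun w => T ≤ exc μ w)

/-- words with small excess -/
def dn (Q : List Dir → Prop) (μ : ℝ) (n : ℕ) (T : ℝ) : Finset (List Dir) :=
  (K Q n).filter (fun w => T ≤ -exc μ w)

theorem bu_le {n : ℕ} {Q : List Dir → Prop} {w : List Dir} (hw : w ∈ K Q n) : bu w ≤ n := by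
  have h1 : w.length = n := (mem_K.1 hw).1
  unfold bu bumps
  refine (card_filter_le _ _).trans ?_
  rw [card_range, h1]

theorem fr_le {n : ℕ} {Q : List Dir → Prop} {w : List Dir} (hw : w ∈ K Q n) : fr w ≤ 6 * n := by
  have h1 : w.length = n := (mem_K.1 hw).1
  unfold fr sites
  refine (card_filter_le _ _).trans ?_
  rw [card_product, card_range, h1]
  have : (univ : Finset Dir).card = 6 := by decide
  rw [this, mul_comm]

/-- an insertion changes the excess by a bounded amount -/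
theorem exc_ins (μ : ℝ) (hμ : 0 < μ) (hμ5 : μ ≤ 5) (w : List Dir) (i : ℕ) (d : Dir) (hw : SAP w)
    (hs : site w i d) : exc μ w - 153 ≤ exc μ (ins w i d) := by
  obtain ⟨h1, -, h3, -⟩ := S_change_proof w i d hw hs
  have h1' : (fr w : ℝ) ≤ fr (ins w i d) + 28 := by exact_mod_cast h1
  have h3' : (bu (ins w i d) : ℝ) ≤ bu w + 5 := by exact_mod_cast h3
  have h4 : μ ^ 2 ≤ 25 := by nlinarith
  have h5 : μ ^ 2 * (bu (ins w i d) : ℝ) ≤ μ ^ 2 * (bu w + 5) :=
    mul_le_mul_of_nonneg_left h3' (by positivity)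
  unfold exc
  nlinarith

theorem up_step (Q : List Dir → Prop) (hQ : Inv Q) (μ : ℝ) (hμ : 0 < μ) (hμ5 : μ ≤ 5) (n : ℕ)
    (hn : 4 ≤ n) (T δ : ℝ) (hδ : 0 ≤ δ) (hT : μ ^ 2 * (δ * (n + 5) + 5) ≤ T) :
    ((up Q μ n T).card : ℝ) * (μ ^ 2 * (1 + δ)) ≤ ((up Q μ (n + 2) (T - 153)).card : ℝ) := by
  have key := c_sum Q hQ n hn (fun w w' => if T ≤ exc μ w then 1 / (bu w' : ℝ) else 0)
  have hL : ((up Q μ n T).card : ℝ) * (μ ^ 2 * (1 + δ)) ≤
      ∑ w ∈ K Q n, ∑ q ∈ sites w,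
        (if T ≤ exc μ w then 1 / (bu (ins w q.1 q.2) : ℝ) else 0) := by
    rw [← nsmul_eq_mul, ← sum_const]
    unfold up
    rw [sum_filter]
    refine sum_le_sum fun w hw => ?_
    split_ifs with h
    · have hwK := mem_K.1 hw
      have h1 : ∀ q ∈ sites w, 1 / ((bu w : ℝ) + 5) ≤ 1 / (bu (ins w q.1 q.2) : ℝ) := by
        rintro ⟨i, d⟩ hq
        have hs := mem_sites.1 hq
        obtain ⟨-, -, h3, -⟩ := S_change_proof w i d hwK.2.1 hs
        obtain ⟨-, -, h4, -⟩ := S_ins_proof w i d hwK.2.1 hs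
        have h5 : 0 < bu (ins w i d) := card_pos.2 ⟨i, mem_bumps.2 h4⟩
        have h6 : (0 : ℝ) < bu (ins w i d) := by exact_mod_cast h5
        have h7 : (bu (ins w i d) : ℝ) ≤ bu w + 5 := by exact_mod_cast h3
        exact one_div_le_one_div_of_le h6 h7
      calc μ ^ 2 * (1 + δ) ≤ (fr w : ℝ) * (1 / ((bu w : ℝ) + 5)) := by
            rw [mul_one_div, le_div_iff₀ (by positivity)]
            have hb : (bu w : ℝ) ≤ n := by exact_mod_cast bu_le hw
            unfold exc at h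
            have h8 : μ ^ 2 * (δ * (bu w + 5)) ≤ μ ^ 2 * (δ * (n + 5)) := by gcongr
            nlinarith
        _ = ∑ _q ∈ sites w, 1 / ((bu w : ℝ) + 5) := by
            rw [sum_const, nsmul_eq_mul]; rfl
        _ ≤ _ := sum_le_sum h1
    · simp
  have hR : ∑ w ∈ K Q (n + 2), ∑ j ∈ bumps w,
        (if T ≤ exc μ (rem w j) then 1 / (bu w : ℝ) else 0) ≤
      ((up Q μ (n + 2) (T - 153)).card : ℝ) := by
    have e : ((up Q μ (n + 2) (T - 153)).card : ℝ) =
        ∑ w ∈ K Q (n + 2), (if T - 153 ≤ exc μ w then (1 : ℝ) else 0) := by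
      unfold up
      rw [← sum_filter, sum_const, nsmul_eq_mul, mul_one]
    rw [e]
    refine sum_le_sum fun w hw => ?_
    have hwK := mem_K.1 hw
    split_ifs with h
    · calc ∑ j ∈ bumps w, (if T ≤ exc μ (rem w j) then 1 / (bu w : ℝ) else 0)
          ≤ ∑ _j ∈ bumps w, 1 / (bu w : ℝ) := by
            refine sum_le_sum fun j _ => ?_
            split_ifs
            · exact le_rfl
            · positivity
        _ = (bu w : ℝ) * (1 / bu w) := by rw [sum_const, nsmul_eq_mul]; rfl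
        _ ≤ 1 := by
            rw [mul_one_div]
            exact div_self_le_one _
    · refine (sum_eq_zero fun j hj => ?_).le
      rw [if_neg]
      intro h2
      apply h
      obtain ⟨r1, r2, r3, r4⟩ := S_rem_proof w j hwK.2.1 (by omega) (mem_bumps.1 hj)
      have h3 := exc_ins μ hμ hμ5 (rem w j) j (w.getD (j + 2) .xp) r1 r3
      rw [r4] at h3
      linarith
  calc _ ≤ _ := hL
    _ = _ := key
    _ ≤ _ := hR

theorem dn_step (Q : List Dir → Prop) (hQ : Inv Q) (μ : ℝ) (hμ : 0 < μ) (hμ5 : μ ≤ 5) (n : ℕ)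
    (hn : 4 ≤ n) (T δ : ℝ) (hδ : 0 ≤ δ) (hT : δ * (6 * (n + 2) + 28) + 28 ≤ T) :
    ((dn Q μ (n + 2) T).card : ℝ) * (1 + δ) ≤ ((dn Q μ n (T - 153)).card : ℝ) * μ ^ 2 := by
  have key := c_sum Q hQ n hn (fun w w' => if T ≤ -exc μ w' then 1 / (fr w : ℝ) else 0)
  have hR : ((dn Q μ (n + 2) T).card : ℝ) * ((1 + δ) / μ ^ 2) ≤
      ∑ w ∈ K Q (n + 2), ∑ j ∈ bumps w,
        (if T ≤ -exc μ w then 1 / (fr (rem w j) : ℝ) else 0) := by
    rw [← nsmul_eq_mul, ← sum_const]
    unfold dn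
    rw [sum_filter]
    refine sum_le_sum fun w hw => ?_
    split_ifs with h
    · have hwK := mem_K.1 hw
      have h1 : ∀ j ∈ bumps w, 1 / ((fr w : ℝ) + 28) ≤ 1 / (fr (rem w j) : ℝ) := by
        intro j hj
        obtain ⟨r1, r2, r3, r4⟩ := S_rem_proof w j hwK.2.1 (by omega) (mem_bumps.1 hj)
        obtain ⟨h3, -⟩ := S_change_proof (rem w j) j (w.getD (j + 2) .xp) r1 r3
        rw [r4] at h3
        have h5 : 0 < fr (rem w j) := card_pos.2 ⟨_, mem_sites.2 r3⟩
        have h6 : (0 : ℝ) < fr (rem w j) := by exact_mod_cast h5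
        have h7 : (fr (rem w j) : ℝ) ≤ fr w + 28 := by exact_mod_cast h3
        exact one_div_le_one_div_of_le h6 h7
      calc (1 + δ) / μ ^ 2 ≤ (bu w : ℝ) * (1 / ((fr w : ℝ) + 28)) := by
            rw [mul_one_div, div_le_div_iff₀ (by positivity) (by positivity)]
            have hb : (fr w : ℝ) ≤ 6 * (n + 2) := by exact_mod_cast fr_le hw
            unfold exc at h
            have h8 : δ * ((fr w : ℝ) + 28) ≤ δ * (6 * (n + 2) + 28) := by gcongr
            nlinarith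
        _ = ∑ _q ∈ bumps w, 1 / ((fr w : ℝ) + 28) := by
            rw [sum_const, nsmul_eq_mul]; rfl
        _ ≤ _ := sum_le_sum h1
    · simp
  have hL : ∑ w ∈ K Q n, ∑ q ∈ sites w,
        (if T ≤ -exc μ (ins w q.1 q.2) then 1 / (fr w : ℝ) else 0) ≤
      ((dn Q μ n (T - 153)).card : ℝ) := by
    have e : ((dn Q μ n (T - 153)).card : ℝ) =
        ∑ w ∈ K Q n, (if T - 153 ≤ -exc μ w then (1 : ℝ) else 0) := by
      unfold dn
      rw [← sum_filter, sum_const, nsmul_eq_mul, mul_one]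
    rw [e]
    refine sum_le_sum fun w hw => ?_
    have hwK := mem_K.1 hw
    split_ifs with h
    · calc ∑ q ∈ sites w, (if T ≤ -exc μ (ins w q.1 q.2) then 1 / (fr w : ℝ) else 0)
          ≤ ∑ _j ∈ sites w, 1 / (fr w : ℝ) := by
            refine sum_le_sum fun j _ => ?_
            split_ifs
            · exact le_rfl
            · positivity
        _ = (fr w : ℝ) * (1 / fr w) := by rw [sum_const, nsmul_eq_mul]; rfl
        _ ≤ 1 := by
            rw [mul_one_div]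
            exact div_self_le_one _
    · refine (sum_eq_zero fun q hq => ?_).le
      rw [if_neg]
      intro h2
      apply h
      obtain ⟨i, d⟩ := q
      have h3 := exc_ins μ hμ hμ5 w i d hwK.2.1 (mem_sites.1 hq)
      linarith
  have hf : ((dn Q μ (n + 2) T).card : ℝ) * ((1 + δ) / μ ^ 2) ≤
      ((dn Q μ n (T - 153)).card : ℝ) := by
    calc _ ≤ _ := hR
      _ = _ := key.symm
      _ ≤ _ := hL
  rw [mul_div_assoc', div_le_iff₀ (by positivity)] at hf
  exact hf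

theorem up_iter (Q : List Dir → Prop) (hQ : Inv Q) (μ : ℝ) (hμ : 0 < μ) (hμ5 : μ ≤ 5) (n : ℕ)
    (hn : 4 ≤ n) (T δ : ℝ) (hδ : 0 ≤ δ) (m : ℕ)
    (hT : μ ^ 2 * (δ * (n + 2 * m + 5) + 5) ≤ T - 153 * m) :
    ∀ j : ℕ, j ≤ m → ((up Q μ n T).card : ℝ) * (μ ^ 2 * (1 + δ)) ^ j ≤
      ((up Q μ (n + 2 * j) (T - 153 * j)).card : ℝ) := by
  intro j
  induction j with
  | zero => intro _; simp
  | succ j ih =>
    intro hj
    have h1 := ih (by omega)
    have hjm : (j : ℝ) ≤ m := by exact_mod_cast (show j ≤ m by omega)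
    have h2 := up_step Q hQ μ hμ hμ5 (n + 2 * j) (by omega) (T - 153 * j) δ hδ (by
      push_cast
      have h3 : μ ^ 2 * (δ * ((n : ℝ) + 2 * j + 5) + 5) ≤
          μ ^ 2 * (δ * ((n : ℝ) + 2 * m + 5) + 5) := by gcongr
      linarith)
    have e1 : n + 2 * (j + 1) = n + 2 * j + 2 := by ring
    have e2 : T - 153 * ((j + 1 : ℕ) : ℝ) = T - 153 * j - 153 := by push_cast; ring
    rw [e1, e2, pow_succ, ← mul_assoc]
    refine le_trans (mul_le_mul_of_nonneg_right h1 (by positivity)) h2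

theorem up_bound (Q : List Dir → Prop) (hQ : Inv Q) (μ : ℝ) (hμ : 0 < μ) (hμ5 : μ ≤ 5) (n : ℕ)
    (hn : 4 ≤ n) (T δ : ℝ) (hδ : 0 ≤ δ) (m : ℕ)
    (hT : μ ^ 2 * (δ * (n + 2 * m + 5) + 5) ≤ T - 153 * m) :
    ((up Q μ n T).card : ℝ) * (μ ^ 2 * (1 + δ)) ^ m ≤ (a Q (n + 2 * m) : ℝ) := by
  refine (up_iter Q hQ μ hμ hμ5 n hn T δ hδ m hT m le_rfl).trans ?_
  unfold up a
  exact_mod_cast card_filter_le _ _

theorem dn_iter (Q : List Dir → Prop) (hQ : Inv Q) (μ : ℝ) (hμ : 0 < μ) (hμ5 : μ ≤ 5) (n : ℕ)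
    (hn : 4 ≤ n) (δ : ℝ) (hδ : 0 ≤ δ) (m : ℕ) :
    ∀ T : ℝ, δ * (6 * (n + 2 * m) + 28) + 28 ≤ T - 153 * m →
    ((dn Q μ (n + 2 * m) T).card : ℝ) * (1 + δ) ^ m ≤
      ((dn Q μ n (T - 153 * m)).card : ℝ) * (μ ^ 2) ^ m := by
  induction m with
  | zero => intro T _; simp
  | succ m ih =>
    intro T hT
    push_cast at hT
    have h2 := dn_step Q hQ μ hμ hμ5 (n + 2 * m) (by omega) T δ hδ (by
      push_cast
      have : (0 : ℝ) ≤ m := Nat.cast_nonneg m
      have e : (n : ℝ) + 2 * m + 2 = n + 2 * (m + 1) := by ring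
      rw [e]
      linarith)
    have h1 := ih (T - 153) (by
      have h3 : δ * (6 * ((n : ℝ) + 2 * m) + 28) ≤ δ * (6 * ((n : ℝ) + 2 * (m + 1)) + 28) := by
        gcongr
        linarith
      linarith)
    have e1 : n + 2 * (m + 1) = n + 2 * m + 2 := by ring
    have e2 : T - 153 * ((m + 1 : ℕ) : ℝ) = T - 153 - 153 * m := by push_cast; ring
    rw [e1, e2, pow_succ, pow_succ]
    calc ((dn Q μ (n + 2 * m + 2) T).card : ℝ) * ((1 + δ) ^ m * (1 + δ))
        = ((dn Q μ (n + 2 * m + 2) T).card : ℝ) * (1 + δ) * (1 + δ) ^ m := by ring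
      _ ≤ ((dn Q μ (n + 2 * m) (T - 153)).card : ℝ) * μ ^ 2 * (1 + δ) ^ m :=
          mul_le_mul_of_nonneg_right h2 (by positivity)
      _ = ((dn Q μ (n + 2 * m) (T - 153)).card : ℝ) * (1 + δ) ^ m * μ ^ 2 := by ring
      _ ≤ ((dn Q μ n (T - 153 - 153 * m)).card : ℝ) * (μ ^ 2) ^ m * μ ^ 2 :=
          mul_le_mul_of_nonneg_right h1 (by positivity)
      _ = _ := by ring

theorem dn_bound (Q : List Dir → Prop) (hQ : Inv Q) (μ : ℝ) (hμ : 0 < μ) (hμ5 : μ ≤ 5) (n : ℕ)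
    (hn : 4 ≤ n) (T δ : ℝ) (hδ : 0 ≤ δ) (m : ℕ)
    (hT : δ * (6 * (n + 2 * m) + 28) + 28 ≤ T - 153 * m) :
    ((dn Q μ (n + 2 * m) T).card : ℝ) * (1 + δ) ^ m ≤ (a Q n : ℝ) * (μ ^ 2) ^ m := by
  refine (dn_iter Q hQ μ hμ hμ5 n hn δ hδ m T hT).trans ?_
  refine mul_le_mul_of_nonneg_right ?_ (by positivity)
  unfold dn a
  exact_mod_cast card_filter_le _ _

end

end Pool.Agent.R259.KL
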