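import Pool.Agent.R259.KL.Fin

/-!
# Local balance in a fixed knot type (MP_aea6d5_co, partial)

`fr w` is the number of places of a polygon where one edge can be replaced by three edges around a
square, `bu w` the number of places where three edges around a square can be replaced by one. In
all but exponentially few polygons of a given knot type the quotient `fr w / bu w` is close to the
square of the growth rate of the knot type.
-/

set_option autoImplicit false

namespace Pool.Agent.Results.MP_aea6d5_co.LocalBalance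

open Filter Topology KN Pool.Agent.R259.KL
open scoped Classical

/-- Local balance. `K Q n` is the set of the closed self-avoiding words of length `n` with the
property `Q` (polygons with a starting point and an orientation).

* For every class `Q` of knot types (in particular for a single knot type, see the third part) and
  every `ε > 0` the number of `w` in `K Q n` with `|fr w - gr Q ^ 2 * bu w| ≥ ε * bu w` is
  exponentially smaller than `gr Q ^ n`.
* If the class is closed under connected sums (for instance the unknots) then the number of those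
  with `|fr w - gr Q ^ 2 * bu w| ≥ t` is at most `300 n (gr Q) ^ n exp (- t ^ 2 / (10 ^ 6 n))`, and
  the words of the first part are an exponentially small proportion of all words of `K Q n`.
* Different growth rates can be seen from the statistic `fr w / bu w`. -/
theorem result :
    (∀ Q : List Dir → Prop, KClass Q → (∃ w, SAP w ∧ Q w) → ∀ ε : ℝ, 0 < ε →
      ∃ θ C : ℝ, 0 < θ ∧ θ < 1 ∧ ∀ n : ℕ,
        (((K Q n).filter (fun w => ε * bu w ≤ |(fr w : ℝ) - gr Q ^ 2 * bu w|)).card : ℝ) ≤
          C * (θ * gr Q) ^ n) ∧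
    (∀ Q : List Dir → Prop, KClass Q → (∃ w, SAP w ∧ Q w) → CSum Q →
      (∀ n : ℕ, 1 ≤ n → ∀ t : ℝ, 0 ≤ t →
        (((K Q n).filter (fun w => t ≤ |(fr w : ℝ) - gr Q ^ 2 * bu w|)).card : ℝ) ≤
          300 * n * gr Q ^ n * Real.exp (-(t ^ 2 / (10 ^ 6 * n)))) ∧
      ∀ ε : ℝ, 0 < ε → ∃ θ : ℝ, 0 < θ ∧ θ < 1 ∧ ∀ᶠ j : ℕ in atTop, 0 < a Q (2 * j) ∧
        (((K Q (2 * j)).filter (fun w => ε * bu w ≤ |(fr w : ℝ) - gr Q ^ 2 * bu w|)).card : ℝ) ≤
          θ ^ (2 * j) * a Q (2 * j)) ∧
    ((∀ k : List V, KClass (KT k)) ∧ CSum U ∧ ∃ w, SAP w ∧ U w) ∧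
    (∀ Q Q' : List Dir → Prop, KClass Q → (∃ w, SAP w ∧ Q w) → KClass Q' →
      (∃ w, SAP w ∧ Q' w) → gr Q < gr Q' →
      ∃ r θ C : ℝ, 0 < θ ∧ θ < 1 ∧ ∀ n : ℕ,
        (((K Q n).filter (fun w => r * bu w ≤ fr w)).card : ℝ) ≤ C * (θ * gr Q) ^ n ∧
        (((K Q' n).filter (fun w => (fr w : ℝ) ≤ r * bu w)).card : ℝ) ≤
          C * (θ * gr Q') ^ n) := by
  refine ⟨fun Q hQ hne ε hε => ?_, fun Q hQ hne hc => ⟨fun n hn t ht => ?_, fun ε hε => ?_⟩,
    ⟨GEN.kt_class, GEN.u_csum, ⟨sqw, c_sq.2.1, Or.inl (Same.refl _)⟩⟩,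
    fun Q Q' hQ hne hQ' hne' h => separate Q Q' hQ hne hQ' hne' h⟩
  · obtain ⟨θ, C, h1, h2, -, h3⟩ := ratio_form Q hQ hne ε hε
    exact ⟨θ, C, h1, h2, h3⟩
  · obtain ⟨h1, -, h2⟩ := gr_bounds Q hQ hne
    exact gauss Q (GEN.inv_of Q hQ) (gr Q) (by linarith) h2 (upN Q hQ hne hc) n hn t ht
  · exact proportion Q hQ hne hc ε hε

end Pool.Agent.Results.MP_aea6d5_co.LocalBalance
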